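import Mathlib
import Pool.Agent.R246.WarpC

/-!
# MP_1ad12f: every bandlimit-preserving continuous bijection of `ℝ^d` is affine
-/

namespace Pool.Agent.Results.MP_1ad12f_an.AffineWarp

open MeasureTheory FourierTransform SchwartzMap

noncomputable section

/-- `ℝ^d`. -/
abbrev Rd (d : ℕ) : Type := EuclideanSpace ℝ (Fin d)

/-- `g` is the `L²` Fourier transform of the `L²` function `f` on `ℝ^d`
(with `𝓕 φ (x) = ∫ e^{-2πi x·ξ} φ(ξ) dξ`, tested against all Schwartz functions `φ`). -/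
def IsFourierL2 {d : ℕ} (f g : Rd d → ℂ) : Prop :=
  MemLp f 2 volume ∧ MemLp g 2 volume ∧
    ∀ φ : 𝓢(Rd d, ℂ), ∫ x, f x * (𝓕 φ : 𝓢(Rd d, ℂ)) x = ∫ ξ, g ξ * φ ξ

/-- `f` is the continuous representative of a bandlimited function: `f` is continuous, in `L²`,
and its `L²` Fourier transform vanishes almost everywhere outside a compact set. -/
def Bandlimited {d : ℕ} (f : Rd d → ℂ) : Prop :=
  Continuous f ∧ ∃ g, IsFourierL2 f g ∧ ∃ K : Set (Rd d), IsCompact K ∧ ∀ᵐ ξ, ξ ∉ K → g ξ = 0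

/-- The distributional Fourier transform `φ ↦ ∫ u 𝓕φ` of `u` has compact support. -/
def CompactFourierSupport {d : ℕ} (u : Rd d → ℂ) : Prop :=
  ∃ K : Set (Rd d), IsCompact K ∧ ∀ φ : 𝓢(Rd d, ℂ), Disjoint (tsupport φ) K →
    ∫ x, u x * (𝓕 φ : 𝓢(Rd d, ℂ)) x = 0

/-- `γ` is bandlimit-preserving. -/
def BandlimitPreserving {d : ℕ} (γ : Rd d → Rd d) : Prop :=
  ∀ f : Rd d → ℂ, Bandlimited f → CompactFourierSupport (fun x => f (γ x))

/-- Every bandlimit-preserving continuous bijection `γ : ℝ^d → ℝ^d` is affine. -/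
theorem result (d : ℕ) (γ : Rd d → Rd d) (hγ : Continuous γ)
    (hb : Function.Bijective γ) (hpres : BandlimitPreserving γ) :
    ∃ (A : Rd d ≃ₗ[ℝ] Rd d) (b : Rd d), ∀ x, γ x = A x + b := by
  obtain ⟨A, b, hA⟩ := R246.WarpC.affine_of_preserving γ hγ hpres
  have hAb : Function.Bijective A := by
    have h1 : (A : Rd d → Rd d) = fun x => γ x - b := by
      funext x; rw [hA x]; abel
    rw [h1]
    constructor
    · intro x y hxy
      have h2 : γ x - b = γ y - b := hxy
      exact hb.1 (sub_left_injective h2)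
    · intro y
      obtain ⟨x, hx⟩ := hb.2 (y + b)
      refine ⟨x, ?_⟩
      show γ x - b = y
      rw [hx]; abel
  exact ⟨LinearEquiv.ofBijective A hAb, b, hA⟩

end

end Pool.Agent.Results.MP_1ad12f_an.AffineWarp
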